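import Pool.Agent.Run7.h540.Main

/-!
A complete theory all of whose 1-types have stable forking, which does not have stable forking.
-/

open Run7.h540

theorem Pool.Agent.Results.MP_715629_lc.OneTypesNotEnough.result :
    ∃ (L : FirstOrder.Language.{0, 0}) (T : L.Theory),
      T.IsComplete ∧ StableForking T 1 ∧ ¬ ∀ n : ℕ, StableForking T n :=
  Run7.h540.main
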